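import Mathlib

/-!
Zero positions of the recursion `a n = |a (n-1) - gcd (a (n-1)) (n-1)|`.
Every composite zero position costs a factor `4/5 + o(1)` in the ratio `b k / 2 ^ k`.
-/

open Filter Topology

namespace Pool.Agent.Results.MP_2fac2c_nt.CompositeCost

/-- The sequence `a n`, `n ≥ 1` (the value at `0` is not used). -/
def a : ℕ → ℤ
  | 0 => 1
  | 1 => 1
  | (n + 2) => |a (n + 1) - (Int.gcd (a (n + 1)) ((n + 1 : ℕ) : ℤ) : ℤ)|

/-- `b k`, `k ≥ 1`, is the `k`-th index `n ≥ 1` with `a n = 0`, in increasing order. -/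
noncomputable def b (k : ℕ) : ℕ := Nat.nth (fun n => 1 ≤ n ∧ a n = 0) (k - 1)

theorem a_succ {n : ℕ} (hn : 1 ≤ n) :
    a (n + 1) = |a n - (Int.gcd (a n) (n : ℤ) : ℤ)| := by
  obtain ⟨k, rfl⟩ : ∃ k, n = k + 1 := ⟨n - 1, by omega⟩
  rfl

/-- values after a zero at index `m` -/
def run (m : ℕ) : ℕ → ℕ
  | 0 => m
  | (t + 1) => run m t - Nat.gcd (run m t) (m + 1 + t)

theorem run_le (m t : ℕ) : run m t ≤ m - t := by
  induction t with
  | zero => simp [run]
  | succ t ih =>
    have : 0 < Nat.gcd (run m t) (m + 1 + t) := Nat.gcd_pos_of_pos_right _ (by omega)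
    simp only [run]; omega

theorem run_anti (m : ℕ) : Antitone (run m) :=
  antitone_nat_of_succ_le fun t => by simp only [run]; omega

theorem run_ex (m : ℕ) : ∃ t, run m t = 0 := ⟨m, by have := run_le m m; omega⟩

/-- number of steps until the next zero -/
def len (m : ℕ) : ℕ := Nat.find (run_ex m)

/-- next zero position -/
def nxt (m : ℕ) : ℕ := m + 1 + len m

theorem run_len (m : ℕ) : run m (len m) = 0 := Nat.find_spec (run_ex m)

theorem run_pos {m t : ℕ} (h : t < len m) : 0 < run m t :=
  Nat.pos_of_ne_zero (Nat.find_min (run_ex m) h)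

theorem len_le (m : ℕ) : len m ≤ m := Nat.find_min' _ (by have := run_le m m; omega)

theorem a_run {m : ℕ} (hm : 1 ≤ m) (h0 : a m = 0) :
    ∀ t, t ≤ len m → a (m + 1 + t) = run m t := by
  intro t
  induction t with
  | zero =>
    intro _
    rw [add_zero, a_succ hm, h0]; simp [run]
  | succ t ih =>
    intro ht
    have h1 := ih (by omega)
    have h2 := run_pos (show t < len m by omega)
    have h3 : Nat.gcd (run m t) (m + 1 + t) ≤ run m t := Nat.gcd_le_left _ h2
    rw [← add_assoc, a_succ (by omega), h1, Int.gcd_natCast_natCast]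
    simp only [run]
    rw [Nat.cast_sub h3, abs_of_nonneg]
    have : ((Nat.gcd (run m t) (m + 1 + t) : ℕ) : ℤ) ≤ (run m t : ℤ) := by exact_mod_cast h3
    omega

/-- the zero positions, from index `0` -/
def z : ℕ → ℕ
  | 0 => 2
  | (k + 1) => nxt (z k)

theorem z_spec (k : ℕ) : 1 ≤ z k ∧ a (z k) = 0 := by
  induction k with
  | zero => exact ⟨by simp [z], by simp [z, a]⟩
  | succ k ih =>
    refine ⟨by simp only [z, nxt]; omega, ?_⟩
    simp only [z, nxt]
    rw [a_run ih.1 ih.2 _ le_rfl, run_len]; simp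

theorem z_lt (k : ℕ) : z k < z (k + 1) := by simp only [z, nxt]; omega

theorem z_mono : StrictMono z := strictMono_nat_of_lt_succ z_lt

theorem z_gap {k n : ℕ} (h1 : z k < n) (h2 : n < z (k + 1)) : a n ≠ 0 := by
  simp only [z, nxt] at h2
  obtain ⟨t, rfl⟩ : ∃ t, n = z k + 1 + t := ⟨n - (z k + 1), by omega⟩
  rw [a_run (z_spec k).1 (z_spec k).2 t (by omega)]
  have := run_pos (show t < len (z k) by omega)
  omega

theorem nth_eq (k : ℕ) : Nat.nth (fun n => 1 ≤ n ∧ a n = 0) k = z k := by
  induction k using Nat.strong_induction_on with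
  | _ k ih =>
    rw [Nat.nth_eq_sInf]
    have hmem : z k ∈ {x | (1 ≤ x ∧ a x = 0) ∧
        ∀ j < k, Nat.nth (fun n => 1 ≤ n ∧ a n = 0) j < x} :=
      ⟨z_spec k, fun j hj => by rw [ih j hj]; exact z_mono hj⟩
    refine le_antisymm (Nat.sInf_le hmem) ?_
    have hs := Nat.sInf_mem ⟨_, hmem⟩
    set x := sInf {x | (1 ≤ x ∧ a x = 0) ∧
        ∀ j < k, Nat.nth (fun n => 1 ≤ n ∧ a n = 0) j < x} with hx
    obtain ⟨⟨h1, h2⟩, h3⟩ := hs
    by_contra hlt
    push Not at hlt
    cases k with
    | zero =>
      have : x = 1 := by simp only [z] at hlt; omega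
      rw [this] at h2; simp [a] at h2
    | succ k =>
      have h4 := h3 k (by omega)
      rw [ih k (by omega)] at h4
      exact z_gap h4 hlt h2

theorem b_eq (k : ℕ) : b (k + 1) = z k := by simp [b, nth_eq]

/-- The invariant along a block. -/
theorem inv (m : ℕ) : ∀ t, t ≤ len m →
    (run m t + (m + 1 + t)) % 2 = 1 ∧ run m t + (m + 1 + t) ≤ 2 * m + 1 ∧
    ∃ l, l ≤ t ∧ 2 * t + 3 * (run m t + (m + 1 + t)) ≤ 3 * (2 * m + 1) + 2 * l ∧
      ∀ j, m + 1 + t - l ≤ j → j < m + 1 + t → Nat.Coprime (run m t + (m + 1 + t)) j := by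
  intro t
  induction t with
  | zero =>
    intro _
    refine ⟨by simp only [run]; omega, by simp only [run]; omega, 0, le_rfl,
      by simp only [run]; omega, fun j h1 h2 => by omega⟩
  | succ t ih =>
    intro ht
    obtain ⟨hodd, hle, l, hl, hpot, hcop⟩ := ih (by omega)
    have h2 := run_pos (show t < len m by omega)
    have h3 : Nat.gcd (run m t) (m + 1 + t) ≤ run m t := Nat.gcd_le_left _ h2
    have h4 : 0 < Nat.gcd (run m t) (m + 1 + t) := Nat.gcd_pos_of_pos_left _ h2
    have h5 : Nat.gcd (run m t) (m + 1 + t) ∣ run m t + (m + 1 + t) :=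
      Dvd.dvd.add (Nat.gcd_dvd_left _ _) (Nat.gcd_dvd_right _ _)
    have h6 : Nat.gcd (run m t) (m + 1 + t) ∣ m + 1 + t := Nat.gcd_dvd_right _ _
    have hrun : run m (t + 1) = run m t - Nat.gcd (run m t) (m + 1 + t) := rfl
    have hgc : Nat.gcd (run m t + (m + 1 + t)) (m + 1 + t) = Nat.gcd (run m t) (m + 1 + t) :=
      Nat.gcd_add_self_left _ _
    set g := Nat.gcd (run m t) (m + 1 + t) with hg
    have hgodd : g % 2 = 1 := by
      by_contra h
      have h7 : 2 ∣ g := by omega
      have h8 := h7.trans h5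
      omega
    refine ⟨by omega, by omega, ?_⟩
    by_cases hg1 : g = 1
    · refine ⟨l + 1, by omega, by omega, fun j hj1 hj2 => ?_⟩
      have hS : run m (t + 1) + (m + 1 + (t + 1)) = run m t + (m + 1 + t) := by omega
      rw [hS]
      by_cases hj : j = m + 1 + t
      · rw [hj]; unfold Nat.Coprime; rw [hgc, hg1]
      · exact hcop j (by omega) (by omega)
    · have hlg : l < g := by
        by_contra hc
        have h7 : g ≤ m + 1 + t := by omega
        have h8 := hcop (m + 1 + t - g) (by omega) (by omega)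
        have h9 : g ∣ m + 1 + t - g := Nat.dvd_sub h6 dvd_rfl
        have h10 := Nat.eq_one_of_dvd_coprimes h8 h5 h9
        exact hg1 h10
      exact ⟨0, by omega, by omega, fun j h1 h2 => by omega⟩

theorem nxt_le (m : ℕ) : nxt m ≤ 2 * m + 1 := by
  have := len_le m
  simp only [nxt]; omega

/-- Key inequality: the least prime factor of a zero position is large unless it lost a fifth. -/
theorem key (m : ℕ) (hm : 1 ≤ m) : 5 * nxt m ≤ 8 * m + 3 + 2 * (nxt m).minFac := by
  obtain ⟨-, -, l, hl, hpot, hcop⟩ := inv m (len m) le_rfl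
  rw [run_len, zero_add] at hpot hcop
  have hb : nxt m = m + 1 + len m := rfl
  rw [← hb] at hpot hcop
  have h1 : nxt m ≠ 1 := by omega
  have hp := Nat.minFac_prime h1
  have hd := Nat.minFac_dvd (nxt m)
  have hlt : l < (nxt m).minFac := by
    by_contra hc
    have h8 := hcop (nxt m - (nxt m).minFac) (by omega) (by have := hp.two_le; omega)
    have h9 : (nxt m).minFac ∣ nxt m - (nxt m).minFac := Nat.dvd_sub hd dvd_rfl
    exact hp.one_lt.ne' (Nat.eq_one_of_dvd_coprimes h8 hd h9)
  omega

theorem nxt_of_prime {m t u p : ℕ} (hu : 0 < u) (h : run m t = u) (hp : p.Prime)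
    (hsum : u + (m + 1 + t) = p) (hm : 1 ≤ m) : nxt m = p := by
  have hrun : ∀ s, s ≤ u → run m (t + s) = u - s := by
    intro s
    induction s with
    | zero => intro _; simpa using h
    | succ s ih =>
      intro hs
      have h1 := ih (by omega)
      have h2 : run m (t + (s + 1)) =
          run m (t + s) - Nat.gcd (run m (t + s)) (m + 1 + (t + s)) := rfl
      have h3 : Nat.gcd (u - s) (m + 1 + (t + s)) = 1 := by
        rw [← Nat.gcd_add_self_left]
        have h4 : u - s + (m + 1 + (t + s)) = p := by omega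
        rw [h4]
        exact (Nat.coprime_of_lt_prime (by omega) (by omega) hp)
      rw [h2, h1, h3]; omega
  have hlen : len m = t + u := by
    rw [len, Nat.find_eq_iff]
    refine ⟨by rw [hrun u le_rfl]; omega, fun n hn => ?_⟩
    have h1 := hrun (u - 1) (by omega)
    have h2 := run_anti m (show n ≤ t + (u - 1) by omega)
    omega
  simp only [nxt]; omega

theorem z_0 : z 0 = 2 := rfl

theorem z_1 : z 1 = 5 := by
  rw [z, z_0]
  exact nxt_of_prime (t := 0) (u := 2) (by norm_num) (by decide +kernel) (by norm_num)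
    (by norm_num) (by norm_num)

theorem z_2 : z 2 = 11 := by
  rw [z, z_1]
  exact nxt_of_prime (t := 0) (u := 5) (by norm_num) (by decide +kernel) (by norm_num)
    (by norm_num) (by norm_num)

theorem z_3 : z 3 = 23 := by
  rw [z, z_2]
  exact nxt_of_prime (t := 0) (u := 11) (by norm_num) (by decide +kernel) (by norm_num)
    (by norm_num) (by norm_num)

theorem z_4 : z 4 = 47 := by
  rw [z, z_3]
  exact nxt_of_prime (t := 0) (u := 23) (by norm_num) (by decide +kernel) (by norm_num)
    (by norm_num) (by norm_num)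

theorem z_5 : z 5 = 79 := by
  rw [z, z_4]
  exact nxt_of_prime (t := 5) (u := 26) (by norm_num) (by decide +kernel) (by norm_num)
    (by norm_num) (by norm_num)

theorem z_6 : z 6 = 157 := by
  rw [z, z_5]
  exact nxt_of_prime (t := 2) (u := 75) (by norm_num) (by decide +kernel) (by norm_num)
    (by norm_num) (by norm_num)

theorem z_7 : z 7 = 313 := by
  rw [z, z_6]
  exact nxt_of_prime (t := 2) (u := 153) (by norm_num) (by decide +kernel) (by norm_num)
    (by norm_num) (by norm_num)

theorem z_8 : z 8 = 619 := by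
  rw [z, z_7]
  exact nxt_of_prime (t := 8) (u := 297) (by norm_num) (by decide +kernel) (by norm_num)
    (by norm_num) (by norm_num)

theorem z_9 : z 9 = 1237 := by
  rw [z, z_8]
  exact nxt_of_prime (t := 2) (u := 615) (by norm_num) (by decide +kernel) (by norm_num)
    (by norm_num) (by norm_num)

theorem z_10 : z 10 = 2473 := by
  rw [z, z_9]
  exact nxt_of_prime (t := 2) (u := 1233) (by norm_num) (by decide +kernel) (by norm_num)
    (by norm_num) (by norm_num)

theorem z_11 : z 11 = 4909 := by
  rw [z, z_10]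
  exact nxt_of_prime (t := 29) (u := 2406) (by norm_num) (by decide +kernel) (by norm_num)
    (by norm_num) (by norm_num)

theorem z_12 : z 12 = 9817 := by
  rw [z, z_11]
  exact nxt_of_prime (t := 2) (u := 4905) (by norm_num) (by decide +kernel) (by norm_num)
    (by norm_num) (by norm_num)

theorem z_13 : z 13 = 19603 := by
  rw [z, z_12]
  exact nxt_of_prime (t := 17) (u := 9768) (by norm_num) (by decide +kernel) (by norm_num)
    (by norm_num) (by norm_num)

theorem z_14 : z 14 = 39199 := by
  rw [z, z_13]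
  exact nxt_of_prime (t := 8) (u := 19587) (by norm_num) (by decide +kernel) (by norm_num)
    (by norm_num) (by norm_num)

theorem z_15 : z 15 = 78193 := by
  rw [z, z_14]
  exact nxt_of_prime (t := 78) (u := 38915) (by norm_num) (by decide +kernel) (by norm_num)
    (by norm_num) (by norm_num)

theorem z_16 : z 16 = 156019 := by
  rw [z, z_15]
  exact nxt_of_prime (t := 179) (u := 77646) (by norm_num) (by decide +kernel) (by norm_num)
    (by norm_num) (by norm_num)

theorem z_17 : z 17 = 311347 := by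
  rw [z, z_16]
  exact nxt_of_prime (t := 218) (u := 155109) (by norm_num) (by decide +kernel) (by norm_num)
    (by norm_num) (by norm_num)

theorem z_18 : z 18 = 622669 := by
  rw [z, z_17]
  exact nxt_of_prime (t := 14) (u := 311307) (by norm_num) (by decide +kernel) (by norm_num)
    (by norm_num) (by norm_num)

theorem z_19 : z 19 = 1244149 := by
  rw [z, z_18]
  exact nxt_of_prime (t := 578) (u := 620901) (by norm_num) (by decide +kernel) (by norm_num)
    (by norm_num) (by norm_num)

theorem z_20 : z 20 = 2487739 := by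
  rw [z, z_19]
  exact nxt_of_prime (t := 293) (u := 1243296) (by norm_num) (by decide +kernel) (by norm_num)
    (by norm_num) (by norm_num)

theorem z_21 : z 21 = 4975111 := by
  rw [z, z_20]
  exact nxt_of_prime (t := 116) (u := 2487255) (by norm_num) (by decide +kernel) (by norm_num)
    (by norm_num) (by norm_num)

theorem z_22 : z 22 = 9950221 := by
  rw [z, z_21]
  exact nxt_of_prime (t := 2) (u := 4975107) (by norm_num) (by decide +kernel) (by norm_num)
    (by norm_num) (by norm_num)

theorem z_prime_small (k : ℕ) (hk : k ≤ 22) : (z k).Prime := by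
  interval_cases k
  · rw [z_0]; norm_num
  · rw [z_1]; norm_num
  · rw [z_2]; norm_num
  · rw [z_3]; norm_num
  · rw [z_4]; norm_num
  · rw [z_5]; norm_num
  · rw [z_6]; norm_num
  · rw [z_7]; norm_num
  · rw [z_8]; norm_num
  · rw [z_9]; norm_num
  · rw [z_10]; norm_num
  · rw [z_11]; norm_num
  · rw [z_12]; norm_num
  · rw [z_13]; norm_num
  · rw [z_14]; norm_num
  · rw [z_15]; norm_num
  · rw [z_16]; norm_num
  · rw [z_17]; norm_num
  · rw [z_18]; norm_num
  · rw [z_19]; norm_num
  · rw [z_20]; norm_num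
  · rw [z_21]; norm_num
  · rw [z_22]; norm_num

theorem composite_step {k : ℕ} (hk : 22 ≤ k) (hc : ¬ (z (k + 1)).Prime) :
    ((z (k + 1) : ℝ) + 1) ≤ 0.8001 * (2 * ((z k : ℝ) + 1)) := by
  have hm : 9950221 ≤ z k := by rw [← z_22]; exact z_mono.monotone hk
  have h1 := key (z k) (by omega)
  have h2 := nxt_le (z k)
  have h3 : nxt (z k) = z (k + 1) := rfl
  rw [h3] at h1 h2
  have h4 := Nat.minFac_sq_le_self (n := z (k + 1)) (by have := z_lt k; omega) hc
  set q := (z (k + 1)).minFac
  have h5 : 2000 * q ≤ z k := by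
    by_contra h
    push Not at h
    nlinarith
  have h1' : 5 * (z (k + 1) : ℝ) ≤ 8 * (z k : ℝ) + 3 + 2 * (q : ℝ) := by exact_mod_cast h1
  have h5' : 2000 * (q : ℝ) ≤ (z k : ℝ) := by exact_mod_cast h5
  norm_num
  linarith

/-- the normalised ratio -/
noncomputable def r (k : ℕ) : ℝ := ((z k : ℝ) + 1) / 2 ^ (k + 1)

theorem r_nonneg (k : ℕ) : 0 ≤ r k := by unfold r; positivity

theorem r_succ_le (k : ℕ) : r (k + 1) ≤ r k := by
  have h2 : z (k + 1) ≤ 2 * z k + 1 := nxt_le (z k)
  have h3 : (z (k + 1) : ℝ) ≤ 2 * (z k : ℝ) + 1 := by exact_mod_cast h2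
  unfold r
  rw [div_le_div_iff₀ (by positivity) (by positivity), pow_succ 2 (k + 1)]
  have : (0 : ℝ) < 2 ^ (k + 1) := by positivity
  nlinarith

theorem r_succ_le' {k : ℕ} (hk : 22 ≤ k) (hc : ¬ (z (k + 1)).Prime) :
    r (k + 1) ≤ 0.8001 * r k := by
  have h := composite_step hk hc
  unfold r
  rw [← mul_div_assoc, div_le_div_iff₀ (by positivity) (by positivity), pow_succ 2 (k + 1)]
  have : (0 : ℝ) < 2 ^ (k + 1) := by positivity
  nlinarith

theorem r_anti : Antitone r := antitone_nat_of_succ_le r_succ_le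

theorem r_bound (G : Finset ℕ) (hG : ∀ k ∈ G, ¬ (z k).Prime) (n : ℕ) (hn : 22 ≤ n) :
    r n ≤ 1.1862 * 0.8001 ^ (G.filter (· ≤ n)).card := by
  induction n, hn using Nat.le_induction with
  | base =>
    have : G.filter (· ≤ 22) = ∅ := by
      rw [Finset.filter_eq_empty_iff]
      intro k hk hk'
      exact hG k hk (z_prime_small k hk')
    rw [this]
    unfold r
    rw [z_22]
    norm_num
  | succ n hn ih =>
    by_cases h : n + 1 ∈ G
    · have h1 : G.filter (· ≤ n + 1) = insert (n + 1) (G.filter (· ≤ n)) := by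
        ext x
        simp only [Finset.mem_filter, Finset.mem_insert]
        constructor
        · rintro ⟨h1, h2⟩
          by_cases hx : x = n + 1
          · exact Or.inl hx
          · exact Or.inr ⟨h1, by omega⟩
        · rintro (rfl | ⟨h1, h2⟩)
          · exact ⟨h, le_rfl⟩
          · exact ⟨h1, by omega⟩
      rw [h1, Finset.card_insert_of_notMem (by simp), pow_succ]
      have := r_succ_le' hn (hG _ h)
      nlinarith
    · have h1 : G.filter (· ≤ n + 1) = G.filter (· ≤ n) := by
        ext x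
        simp only [Finset.mem_filter]
        constructor
        · rintro ⟨h1, h2⟩
          refine ⟨h1, ?_⟩
          by_contra hx
          have : x = n + 1 := by omega
          exact h (this ▸ h1)
        · rintro ⟨h1, h2⟩
          exact ⟨h1, by omega⟩
      rw [h1]
      exact (r_succ_le n).trans ih

theorem result : ∃ c : ℝ, Tendsto (fun k : ℕ => (b k : ℝ) / 2 ^ k) atTop (𝓝 c) ∧
    ∀ F : Finset ℕ, (∀ k ∈ F, 1 ≤ k ∧ ¬ (b k).Prime) →
      c ≤ 1.1862 * 0.8001 ^ F.card := by
  have hbdd : BddBelow (Set.range r) := ⟨0, by rintro _ ⟨k, rfl⟩; exact r_nonneg k⟩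
  have hlim : Tendsto r atTop (𝓝 (⨅ k, r k)) := tendsto_atTop_ciInf r_anti hbdd
  refine ⟨⨅ k, r k, ?_, fun F hF => ?_⟩
  · rw [← tendsto_add_atTop_iff_nat 1]
    have h0 : Tendsto (fun k : ℕ => ((1 : ℝ) / 2) ^ (k + 1)) atTop (𝓝 0) :=
      (tendsto_add_atTop_iff_nat 1).2
        (tendsto_pow_atTop_nhds_zero_of_lt_one (by norm_num) (by norm_num))
    have h1 := hlim.sub h0
    rw [sub_zero] at h1
    refine h1.congr fun k => ?_
    rw [b_eq]
    unfold r
    rw [one_div, inv_pow]
    field_simp
    ring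
  · set G := F.image (· - 1) with hGdef
    have hcard : G.card = F.card := by
      refine Finset.card_image_of_injOn fun x hx y hy hxy => ?_
      have h1 := (hF x hx).1
      have h2 := (hF y hy).1
      omega
    have hG : ∀ k ∈ G, ¬ (z k).Prime := by
      intro k hk
      obtain ⟨x, hx, rfl⟩ := Finset.mem_image.1 hk
      obtain ⟨h1, h2⟩ := hF x hx
      rw [← b_eq, Nat.sub_add_cancel h1]
      exact h2
    have h1 := r_bound G hG (max 22 (G.sup id)) (le_max_left _ _)
    have h2 : G.filter (· ≤ max 22 (G.sup id)) = G := by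
      rw [Finset.filter_eq_self]
      intro x hx
      exact le_max_of_le_right (Finset.le_sup (f := id) hx)
    rw [h2, hcard] at h1
    exact (ciInf_le hbdd _).trans h1

end Pool.Agent.Results.MP_2fac2c_nt.CompositeCost
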