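import Mathlib

/-!
Zero positions of the recursion `a n = |a (n-1) - gcd (a (n-1)) (n-1)|`.
Lower bound for the gaps between consecutive zero positions.
-/

namespace Pool.Agent.Results.MP_2fac2c_nt.GapLower

/-- The sequence `a n`, `n ≥ 1` (the value at `0` is not used). -/
def a : ℕ → ℤ
  | 0 => 1
  | 1 => 1
  | (n + 2) => |a (n + 1) - (Int.gcd (a (n + 1)) ((n + 1 : ℕ) : ℤ) : ℤ)|

/-- `b k`, `k ≥ 1`, is the `k`-th index `n ≥ 1` with `a n = 0`, in increasing order. -/
noncomputable def b (k : ℕ) : ℕ := Nat.nth (fun n => 1 ≤ n ∧ a n = 0) (k - 1)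

theorem a_succ {n : ℕ} (hn : 1 ≤ n) :
    a (n + 1) = |a n - (Int.gcd (a n) (n : ℤ) : ℤ)| := by
  obtain ⟨k, rfl⟩ : ∃ k, n = k + 1 := ⟨n - 1, by omega⟩
  rfl

/-- values after a zero at index `m` -/
def run (m : ℕ) : ℕ → ℕ
  | 0 => m
  | (t + 1) => run m t - Nat.gcd (run m t) (m + 1 + t)

theorem run_le (m t : ℕ) : run m t ≤ m - t := by
  induction t with
  | zero => simp [run]
  | succ t ih =>
    have : 0 < Nat.gcd (run m t) (m + 1 + t) := Nat.gcd_pos_of_pos_right _ (by omega)
    simp only [run]; omega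

theorem run_anti (m : ℕ) : Antitone (run m) :=
  antitone_nat_of_succ_le fun t => by simp only [run]; omega

theorem run_ex (m : ℕ) : ∃ t, run m t = 0 := ⟨m, by have := run_le m m; omega⟩

/-- number of steps until the next zero -/
def len (m : ℕ) : ℕ := Nat.find (run_ex m)

/-- next zero position -/
def nxt (m : ℕ) : ℕ := m + 1 + len m

theorem run_len (m : ℕ) : run m (len m) = 0 := Nat.find_spec (run_ex m)

theorem run_pos {m t : ℕ} (h : t < len m) : 0 < run m t :=
  Nat.pos_of_ne_zero (Nat.find_min (run_ex m) h)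

theorem len_le (m : ℕ) : len m ≤ m := Nat.find_min' _ (by have := run_le m m; omega)

theorem a_run {m : ℕ} (hm : 1 ≤ m) (h0 : a m = 0) :
    ∀ t, t ≤ len m → a (m + 1 + t) = run m t := by
  intro t
  induction t with
  | zero =>
    intro _
    rw [add_zero, a_succ hm, h0]; simp [run]
  | succ t ih =>
    intro ht
    have h1 := ih (by omega)
    have h2 := run_pos (show t < len m by omega)
    have h3 : Nat.gcd (run m t) (m + 1 + t) ≤ run m t := Nat.gcd_le_left _ h2
    rw [← add_assoc, a_succ (by omega), h1, Int.gcd_natCast_natCast]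
    simp only [run]
    rw [Nat.cast_sub h3, abs_of_nonneg]
    have : ((Nat.gcd (run m t) (m + 1 + t) : ℕ) : ℤ) ≤ (run m t : ℤ) := by exact_mod_cast h3
    omega

/-- the zero positions, from index `0` -/
def z : ℕ → ℕ
  | 0 => 2
  | (k + 1) => nxt (z k)

theorem z_spec (k : ℕ) : 1 ≤ z k ∧ a (z k) = 0 := by
  induction k with
  | zero => exact ⟨by simp [z], by simp [z, a]⟩
  | succ k ih =>
    refine ⟨by simp only [z, nxt]; omega, ?_⟩
    simp only [z, nxt]
    rw [a_run ih.1 ih.2 _ le_rfl, run_len]; simp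

theorem z_lt (k : ℕ) : z k < z (k + 1) := by simp only [z, nxt]; omega

theorem z_mono : StrictMono z := strictMono_nat_of_lt_succ z_lt

theorem z_gap {k n : ℕ} (h1 : z k < n) (h2 : n < z (k + 1)) : a n ≠ 0 := by
  simp only [z, nxt] at h2
  obtain ⟨t, rfl⟩ : ∃ t, n = z k + 1 + t := ⟨n - (z k + 1), by omega⟩
  rw [a_run (z_spec k).1 (z_spec k).2 t (by omega)]
  have := run_pos (show t < len (z k) by omega)
  omega

theorem nth_eq (k : ℕ) : Nat.nth (fun n => 1 ≤ n ∧ a n = 0) k = z k := by
  induction k using Nat.strong_induction_on with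
  | _ k ih =>
    rw [Nat.nth_eq_sInf]
    have hmem : z k ∈ {x | (1 ≤ x ∧ a x = 0) ∧
        ∀ j < k, Nat.nth (fun n => 1 ≤ n ∧ a n = 0) j < x} :=
      ⟨z_spec k, fun j hj => by rw [ih j hj]; exact z_mono hj⟩
    refine le_antisymm (Nat.sInf_le hmem) ?_
    have hs := Nat.sInf_mem ⟨_, hmem⟩
    set x := sInf {x | (1 ≤ x ∧ a x = 0) ∧
        ∀ j < k, Nat.nth (fun n => 1 ≤ n ∧ a n = 0) j < x} with hx
    obtain ⟨⟨h1, h2⟩, h3⟩ := hs
    by_contra hlt
    push Not at hlt
    cases k with
    | zero =>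
      have : x = 1 := by simp only [z] at hlt; omega
      rw [this] at h2; simp [a] at h2
    | succ k =>
      have h4 := h3 k (by omega)
      rw [ih k (by omega)] at h4
      exact z_gap h4 hlt h2

theorem b_eq (k : ℕ) : b (k + 1) = z k := by simp [b, nth_eq]

/-- the jump made at step `t` of the block after a zero at index `m` -/
def jump (m t : ℕ) : ℕ := Nat.gcd (run m t) (m + 1 + t)

theorem jump_pos (m t : ℕ) : 0 < jump m t := Nat.gcd_pos_of_pos_right _ (by omega)

theorem jump_le {m t : ℕ} (h : t < len m) : jump m t ≤ run m t :=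
  Nat.gcd_le_left _ (run_pos h)

theorem run_succ {m t : ℕ} (h : t < len m) : run m (t + 1) + jump m t = run m t := by
  have := jump_le h
  simp only [run, jump] at *
  omega

theorem drop {m s : ℕ} {G : ℝ} : ∀ e, s ≤ e → e ≤ len m →
    (∀ t, s ≤ t → t < e → (jump m t : ℝ) ≤ G) →
    (run m s : ℝ) ≤ run m e + ((e : ℝ) - s) * G := by
  intro e hse
  induction e, hse using Nat.le_induction with
  | base => intro _ _; simp
  | succ e hse ih =>
    intro he hG
    have h1 := ih (by omega) (fun t h1 h2 => hG t h1 (by omega))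
    have h2 : (run m (e + 1) : ℝ) + jump m e = run m e := by
      exact_mod_cast run_succ (show e < len m by omega)
    have h3 := hG e hse (by omega)
    push_cast
    nlinarith

/-- Two jumps divide a small determinant. -/
theorem pair {m i j : ℕ} (hij : i < j) (hj : j < len m) :
    (jump m i : ℝ) * jump m j ≤
      run m (i + 1) * ((j : ℝ) - i) + ((run m (i + 1) : ℝ) - run m j) * (m + 1 + i) := by
  have hle : run m j ≤ run m (i + 1) := run_anti m (by omega)
  obtain ⟨D, hD⟩ := Nat.exists_eq_add_of_le hle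
  obtain ⟨e, rfl⟩ := Nat.exists_eq_add_of_lt hij
  have h1 : jump m i ∣ run m (i + 1) := by
    have h := run_succ (show i < len m by omega)
    have h' : jump m i ∣ run m (i + 1) + jump m i := by
      rw [h]; exact Nat.gcd_dvd_left _ _
    exact (Nat.dvd_add_left (dvd_refl _)).mp h'
  have h2 : jump m i ∣ m + 1 + i := Nat.gcd_dvd_right _ _
  have h3 : jump m (i + e + 1) ∣ run m (i + e + 1) := Nat.gcd_dvd_left _ _
  have h4 : jump m (i + e + 1) ∣ m + 1 + (i + e + 1) := Nat.gcd_dvd_right _ _
  have h5 := Nat.mul_dvd_mul h1 h4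
  have h6 := Nat.mul_dvd_mul h2 h3
  have hpos := run_pos hj
  have h7 : run m (i + 1) * (m + 1 + (i + e + 1)) =
      (m + 1 + i) * run m (i + e + 1) + (run m (i + 1) * (e + 1) + D * (m + 1 + i)) := by
    rw [hD]; ring
  rw [h7] at h5
  have h8 := (Nat.dvd_add_right h6).mp h5
  have h9 : 0 < run m (i + 1) * (e + 1) + D * (m + 1 + i) := by
    have : 0 < run m (i + 1) * (e + 1) := Nat.mul_pos (by omega) (by omega)
    omega
  have h10 := Nat.le_of_dvd h9 h8
  have h11 : ((jump m i * jump m (i + e + 1) : ℕ) : ℝ) ≤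
      ((run m (i + 1) * (e + 1) + D * (m + 1 + i) : ℕ) : ℝ) := by exact_mod_cast h10
  have h12 : (run m (i + 1) : ℝ) = run m (i + e + 1) + D := by exact_mod_cast hD
  push_cast at h11 ⊢
  have h13 : (run m (i + 1) : ℝ) - run m (i + e + 1) = D := by linarith
  rw [h13]
  have h14 : ((i : ℝ) + e + 1 - i) = e + 1 := by ring
  rw [h14]
  exact h11

section count

variable {x : ℕ → ℝ} {Λ : ℝ} {L : ℕ}

theorem chain (hx : ∀ t, t < L → 0 < x t)
    (H : ∀ i j, i < j → j < L → x i + x j < Λ → ∃ t, i < t ∧ t < j ∧ x t ≤ x i + x j) :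
    ∀ n i j, j - i = n → i < j → j < L →
      Λ ≤ x j + ((j : ℝ) - i) * x i ∧ Λ ≤ x i + ((j : ℝ) - i) * x j := by
  intro n
  induction n using Nat.strong_induction_on with
  | _ n ih =>
    intro i j hn hij hj
    have hi := hx i (by omega)
    have hj' := hx j hj
    have h1 : (1 : ℝ) ≤ (j : ℝ) - i := by
      have : ((i + 1 : ℕ) : ℝ) ≤ j := by exact_mod_cast hij
      push_cast at this; linarith
    by_cases hc : x i + x j < Λ
    · obtain ⟨t, h2, h3, h4⟩ := H i j hij hj hc
      have h5 := (ih (t - i) (by omega) i t rfl h2 (by omega)).1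
      have h6 := (ih (j - t) (by omega) t j rfl h3 hj).2
      have h7 : (t : ℝ) + 1 ≤ j := by exact_mod_cast h3
      have h8 : (i : ℝ) + 1 ≤ t := by exact_mod_cast h2
      constructor
      · nlinarith
      · nlinarith
    · constructor
      · nlinarith
      · nlinarith

theorem farey (hx : ∀ t, t < L → 0 < x t)
    (H : ∀ i j, i < j → j < L → x i + x j < Λ → ∃ t, i < t ∧ t < j ∧ x t ≤ x i + x j) :
    ∀ n i j, j - i = n → i < j → j < L → x i ≤ Λ / 2 → x j ≤ Λ / 2 →
      Λ ^ 2 ≤ 8 * ((j : ℝ) - i) * x i * x j := by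
  intro n
  induction n using Nat.strong_induction_on with
  | _ n ih =>
    intro i j hn hij hj hxi hxj
    have hi := hx i (by omega)
    have hj' := hx j hj
    have hΛ : 0 < Λ := by linarith
    by_cases hc : x i + x j ≤ Λ / 2
    · obtain ⟨t, h2, h3, h4⟩ := H i j hij hj (by linarith)
      have h5 := ih (t - i) (by omega) i t rfl h2 (by omega) hxi (by linarith)
      have h6 := ih (j - t) (by omega) t j rfl h3 hj (by linarith) hxj
      have h7 : (0 : ℝ) ≤ (j : ℝ) - t := by
        have : (t : ℝ) ≤ j := by exact_mod_cast h3.le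
        linarith
      have h8 : (0 : ℝ) ≤ (t : ℝ) - i := by
        have : (i : ℝ) ≤ t := by exact_mod_cast h2.le
        linarith
      have h9 : Λ ^ 2 ≤ 8 * ((t : ℝ) - i) * x i * (x i + x j) :=
        h5.trans (mul_le_mul_of_nonneg_left h4 (by positivity))
      have h10 : Λ ^ 2 ≤ 8 * ((j : ℝ) - t) * (x i + x j) * x j :=
        h6.trans (mul_le_mul_of_nonneg_right
          (mul_le_mul_of_nonneg_left h4 (by positivity)) hj'.le)
      have h11 := mul_le_mul_of_nonneg_right h9 hj'.le
      have h12 := mul_le_mul_of_nonneg_right h10 hi.le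
      have h13 : Λ ^ 2 * (x i + x j) ≤ 8 * ((j : ℝ) - i) * x i * x j * (x i + x j) := by
        nlinarith
      exact le_of_mul_le_mul_right h13 (by linarith)
    · obtain ⟨h5, h6⟩ := chain hx H _ i j rfl hij hj
      rcases le_total (x i) (x j) with h | h
      · have h7 : Λ / 2 ≤ ((j : ℝ) - i) * x i := by linarith
        have h8 : Λ / 4 ≤ x j := by linarith
        have h9 := mul_le_mul h7 h8 (by linarith) (by linarith)
        nlinarith
      · have h7 : Λ / 2 ≤ ((j : ℝ) - i) * x j := by linarith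
        have h8 : Λ / 4 ≤ x i := by linarith
        have h9 := mul_le_mul h7 h8 (by linarith) (by linarith)
        nlinarith

end count

theorem len_pos {m : ℕ} (hm : 1 ≤ m) : 1 ≤ len m := by
  by_contra h
  have h0 : len m = 0 := by omega
  have := run_len m
  rw [h0] at this
  simp only [run] at this
  omega

/-- Between two jumps with a large product there is a large jump. -/
theorem between {m i j : ℕ} (hm : 1 ≤ m) (hij : i < j) (hj : j < len m)
    (hK : (6 : ℝ) * m * len m < (jump m i : ℝ) * jump m j) :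
    ∃ t, i < t ∧ t < j ∧ (jump m i : ℝ) * jump m j ≤ 6 * m * len m * jump m t := by
  by_contra hno
  push Not at hno
  have hm' : (1 : ℝ) ≤ m := by exact_mod_cast hm
  have hL : (1 : ℝ) ≤ len m := by exact_mod_cast len_pos hm
  have hKpos : (0 : ℝ) < 6 * m * len m := by positivity
  set P : ℝ := (jump m i : ℝ) * jump m j with hP
  have hPpos : 0 < P := by linarith
  have hd := drop (m := m) (s := i + 1) (G := P / (6 * m * len m)) j (by omega) (by omega)
    (fun t h1 h2 => by
      rw [le_div_iff₀ hKpos]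
      have := hno t (by omega) h2
      linarith)
  have hp := pair hij hj
  rw [← hP] at hp
  have h1 : (run m (i + 1) : ℝ) ≤ m := by
    have := run_le m (i + 1)
    exact_mod_cast (show run m (i + 1) ≤ m by omega)
  have h2 : (j : ℝ) - i ≤ len m := by
    have : (j : ℝ) ≤ len m := by exact_mod_cast hj.le
    have : (0 : ℝ) ≤ i := by positivity
    linarith
  have h2' : (0 : ℝ) ≤ (j : ℝ) - i := by
    have : (i : ℝ) ≤ j := by exact_mod_cast hij.le
    linarith
  have h3 : (m : ℝ) + 1 + i ≤ 3 * m := by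
    have := len_le m
    have : (i : ℝ) ≤ m := by exact_mod_cast (show i ≤ m by omega)
    linarith
  have hG : 0 ≤ P / (6 * m * len m) := by positivity
  have h4 : (run m (i + 1) : ℝ) - run m j ≤ len m * (P / (6 * m * len m)) := by
    push_cast at hd
    have : ((j : ℝ) - (i + 1)) * (P / (6 * m * len m)) ≤ len m * (P / (6 * m * len m)) :=
      mul_le_mul_of_nonneg_right (by linarith) hG
    linarith
  have h5 : (run m (i + 1) : ℝ) * ((j : ℝ) - i) ≤ m * len m :=
    mul_le_mul h1 h2 h2' (by positivity)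
  have h6 : ((run m (i + 1) : ℝ) - run m j) * (m + 1 + i) ≤
      len m * (P / (6 * m * len m)) * (3 * m) :=
    mul_le_mul h4 h3 (by positivity) (by positivity)
  have h7 : (len m : ℝ) * (P / (6 * m * len m)) * (3 * m) = P / 2 := by
    field_simp; ring
  have h8 : (0 : ℝ) < m * len m := by positivity
  nlinarith

/-- Either the block is long, or it holds two large jumps. -/
theorem two_jumps {m : ℕ} (hm : 1 ≤ m) : (m : ℝ) ≤ len m ∨
    ∃ i j, i < j ∧ j < len m ∧ (m : ℝ) ≤ len m * jump m j ∧
      (m : ℝ) ≤ 2 * (len m : ℝ) ^ 2 * jump m i := by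
  have hL := len_pos hm
  have hL' : (1 : ℝ) ≤ len m := by exact_mod_cast hL
  obtain ⟨j, hj, hmax⟩ := Finset.exists_max_image (Finset.range (len m)) (jump m)
    ⟨0, Finset.mem_range.mpr (by omega)⟩
  rw [Finset.mem_range] at hj
  have h1 := drop (m := m) (s := 0) (G := jump m j) (len m) (by omega) le_rfl
    (fun t _ h2 => by exact_mod_cast hmax t (Finset.mem_range.mpr h2))
  rw [run_len] at h1
  simp only [run, Nat.cast_zero, zero_add, sub_zero] at h1
  have hrle : run m j ≤ m := by have := run_le m j; omega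
  have h2 : jump m j ≤ m + 1 + j - run m j :=
    Nat.le_of_dvd (by omega) (Nat.dvd_sub (Nat.gcd_dvd_right _ _) (Nat.gcd_dvd_left _ _))
  have h3 : (jump m j : ℝ) + run m j ≤ m + 1 + j := by
    exact_mod_cast (show jump m j + run m j ≤ m + 1 + j by omega)
  rcases Nat.eq_zero_or_pos j with rfl | hj0
  · left
    simp only [run, Nat.cast_zero] at h3
    nlinarith
  · right
    obtain ⟨i, hi, hmaxi⟩ := Finset.exists_max_image (Finset.range j) (jump m)
      ⟨0, Finset.mem_range.mpr hj0⟩
    rw [Finset.mem_range] at hi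
    have h4 := drop (m := m) (s := 0) (G := jump m i) j (by omega) hj.le
      (fun t _ h2 => by exact_mod_cast hmaxi t (Finset.mem_range.mpr h2))
    simp only [run, Nat.cast_zero, sub_zero] at h4
    have h5 : (1 : ℝ) ≤ jump m i := by exact_mod_cast jump_pos m i
    have h6 : (j : ℝ) + 1 ≤ len m := by exact_mod_cast hj
    have h7 : (jump m j : ℝ) ≤ 2 * len m * jump m i := by nlinarith
    refine ⟨i, j, hi, hj, h1, ?_⟩
    have h8 := mul_le_mul_of_nonneg_left h7 (show (0 : ℝ) ≤ len m by positivity)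
    nlinarith

theorem block {m : ℕ} (hm : 1 ≤ m) :
    Real.log m ^ 2 ≤ 400 * ((len m : ℝ) + 1) * Real.log ((len m : ℝ) + 1) ^ 2 := by
  have hm' : (1 : ℝ) ≤ m := by exact_mod_cast hm
  have hL : (1 : ℝ) ≤ len m := by exact_mod_cast len_pos hm
  have hlm : 0 ≤ Real.log m := Real.log_nonneg hm'
  set l : ℝ := Real.log ((len m : ℝ) + 1) with hl
  have hl0 : 0 ≤ l := Real.log_nonneg (by linarith)
  have hfin : ∀ c : ℝ, 0 ≤ c → c ≤ 14 → Real.log m ≤ c * l →
      Real.log m ^ 2 ≤ 400 * ((len m : ℝ) + 1) * l ^ 2 := by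
    intro c h0 h1 h2
    have h3 : Real.log m ≤ 14 * l := h2.trans (mul_le_mul_of_nonneg_right h1 hl0)
    have h4 : Real.log m ^ 2 ≤ (14 * l) ^ 2 := pow_le_pow_left₀ hlm h3 2
    have h5 : 0 ≤ l ^ 2 := by positivity
    nlinarith
  rcases two_jumps hm with h | ⟨i, j, hij, hj, h1, h2⟩
  · refine hfin 1 (by norm_num) (by norm_num) ?_
    rw [one_mul]
    exact Real.log_le_log (by linarith) (by linarith)
  · set K : ℝ := 6 * m * len m with hK
    have hKpos : 0 < K := by positivity
    have hmK : (m : ℝ) < K := by nlinarith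
    have hjp : ∀ t, (0 : ℝ) < jump m t := fun t => by exact_mod_cast jump_pos m t
    have hx : ∀ t, t < len m → 0 < Real.log K - Real.log (jump m t) := by
      intro t ht
      have h3 : (jump m t : ℝ) ≤ m := by
        have := jump_le ht
        have := run_le m t
        exact_mod_cast (show jump m t ≤ m by omega)
      have := Real.log_lt_log (hjp t) (lt_of_le_of_lt h3 hmK)
      linarith
    have H : ∀ i j, i < j → j < len m →
        (Real.log K - Real.log (jump m i)) + (Real.log K - Real.log (jump m j)) < Real.log K →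
        ∃ t, i < t ∧ t < j ∧ Real.log K - Real.log (jump m t) ≤
          (Real.log K - Real.log (jump m i)) + (Real.log K - Real.log (jump m j)) := by
      intro i j hij hj hc
      have e1 := Real.log_mul (hjp i).ne' (hjp j).ne'
      have h3 : K < (jump m i : ℝ) * jump m j := by
        rw [← Real.log_lt_log_iff hKpos (mul_pos (hjp i) (hjp j))]
        linarith
      obtain ⟨t, h4, h5, h6⟩ := between hm hij hj h3
      refine ⟨t, h4, h5, ?_⟩
      have h7 := Real.log_le_log (mul_pos (hjp i) (hjp j)) h6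
      rw [Real.log_mul hKpos.ne' (hjp t).ne'] at h7
      linarith
    have hpow : 12 * (len m : ℝ) ^ 3 ≤ ((len m : ℝ) + 1) ^ 7 := by
      have e1 : (len m : ℝ) ^ 3 ≤ ((len m : ℝ) + 1) ^ 3 :=
        pow_le_pow_left₀ (by linarith) (by linarith) 3
      have e2 : (2 : ℝ) ^ 4 ≤ ((len m : ℝ) + 1) ^ 4 :=
        pow_le_pow_left₀ (by norm_num) (by linarith) 4
      have e3 : ((len m : ℝ) + 1) ^ 7 = ((len m : ℝ) + 1) ^ 4 * ((len m : ℝ) + 1) ^ 3 := by ring
      have e4 := mul_le_mul e2 e1 (by positivity) (by positivity)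
      have e5 : 0 ≤ (len m : ℝ) ^ 3 := by positivity
      rw [e3]; nlinarith
    have hbound : ∀ t, (m : ℝ) ≤ 2 * (len m : ℝ) ^ 2 * jump m t →
        Real.log K - Real.log (jump m t) ≤ 7 * l := by
      intro t ht
      have e1 : K ≤ ((len m : ℝ) + 1) ^ 7 * jump m t := by
        have e2 := mul_le_mul_of_nonneg_left ht (show (0 : ℝ) ≤ 6 * len m by positivity)
        have e3 := mul_le_mul_of_nonneg_right hpow (hjp t).le
        rw [hK]; nlinarith
      have e4 := Real.log_le_log hKpos e1
      rw [Real.log_mul (by positivity) (hjp t).ne', Real.log_pow] at e4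
      push_cast at e4
      linarith
    have hbi := hbound i h2
    have hbj := hbound j (by
      have e1 : (len m : ℝ) ≤ 2 * (len m : ℝ) ^ 2 := by nlinarith
      exact h1.trans (mul_le_mul_of_nonneg_right e1 (hjp j).le))
    have hmΛ : Real.log m ≤ Real.log K := Real.log_le_log (by linarith) hmK.le
    by_cases hc : 7 * l ≤ Real.log K / 2
    · have h3 := farey (x := fun t => Real.log K - Real.log (jump m t)) hx H _ i j rfl hij hj
        (hbi.trans hc) (hbj.trans hc)
      have h4 : Real.log m ^ 2 ≤ Real.log K ^ 2 := pow_le_pow_left₀ hlm hmΛ 2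
      have h5 : (j : ℝ) - i ≤ len m + 1 := by
        have : (j : ℝ) ≤ len m := by exact_mod_cast hj.le
        have : (0 : ℝ) ≤ i := by positivity
        linarith
      have h6 := hx i (by omega)
      have h7 := hx j hj
      have h8 : 8 * ((j : ℝ) - i) * (Real.log K - Real.log (jump m i)) *
          (Real.log K - Real.log (jump m j)) ≤ 8 * ((len m : ℝ) + 1) * (7 * l) * (7 * l) :=
        mul_le_mul (mul_le_mul (by linarith) hbi h6.le (by positivity)) hbj h7.le (by positivity)
      have h9 : 0 ≤ ((len m : ℝ) + 1) * l ^ 2 := by positivity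
      nlinarith
    · exact hfin 14 (by norm_num) le_rfl (by linarith)

theorem result (k : ℕ) (hk : 1 ≤ k) :
    Real.log (b k) ^ 2 ≤
      400 * ((b (k + 1) : ℝ) - b k) * Real.log ((b (k + 1) : ℝ) - b k) ^ 2 := by
  obtain ⟨j, rfl⟩ : ∃ j, k = j + 1 := ⟨k - 1, by omega⟩
  rw [b_eq, b_eq]
  have h : (z (j + 1) : ℝ) - z j = (len (z j) : ℝ) + 1 := by
    simp only [z, nxt]; push_cast; ring
  rw [h]
  exact block (z_spec j).1

end Pool.Agent.Results.MP_2fac2c_nt.GapLower
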